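import Pool.Agent.W444.CC.Final

/-!
# The character conjecture for spun diagonal tori fails

The counterexample is a 2-cocycle twist of the compact Lie group `SO(3) × SO(3) × SO(3)`.
-/

namespace Pool.Agent.Results.MP_96eab8_al.CharacterCounterexample

open Pool.Agent.W444.QG

/-- There are a connected closed quantum subgroup `G ⊂ U_N⁺` (with `C(G)` the full C*-algebra of
`G`) and a non-zero central element `P ∈ C(G)_central` such that `π_Q(P) = 0` for every spinning
matrix `Q ∈ U_N`. -/
theorem result : ∃ (N : ℕ) (G : ClosedSubgroup N), G.IsFull ∧ G.IsConnected ∧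
    ∃ P ∈ G.central, P ≠ 0 ∧ ∀ Q ∈ Matrix.unitaryGroup (Fin N) ℂ, G.toTorus Q P = 0 :=
  ⟨12, Pool.Agent.W444.CC.QG, Pool.Agent.W444.CC.isFull, Pool.Agent.W444.CC.connected,
    Pool.Agent.W444.CC.PC, Pool.Agent.W444.CC.PC_mem, Pool.Agent.W444.CC.PC_ne_zero,
    fun Q hQ => Pool.Agent.W444.CC.toTorus_PA Q hQ⟩

end Pool.Agent.Results.MP_96eab8_al.CharacterCounterexample
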